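import Mathlib
import Pool.Agent.R159.RangeSumE

set_option autoImplicit false

/-!
# MP_b68c19_nt: stability for polynomials over `𝔽_p` with range sum `p`
-/

namespace Pool.Agent.Results.MP_b68c19_nt.Stability

open Polynomial Finset

/-- The range sum of `P`: the sum in `ℕ` of the least non-negative representatives of the values
`P(x)`, `x ∈ 𝔽_p`. -/
def rangeSum {p : ℕ} [Fact p.Prime] (P : (ZMod p)[X]) : ℕ := ∑ x : ZMod p, (P.eval x).val

/-- `E₁(x) = x^((p-1)/2) + 1`. -/
noncomputable def E₁ (p : ℕ) : (ZMod p)[X] := X ^ ((p - 1) / 2) + 1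

/-- `E₂(x) = (p+1)/2 · (x^((p-1)/2) + 1)`. -/
noncomputable def E₂ (p : ℕ) : (ZMod p)[X] :=
  C (((p + 1) / 2 : ℕ) : ZMod p) * (X ^ ((p - 1) / 2) + 1)

/-- `P` is an affine translate of `Q`: `P(x) = Q(a x + b)` for some `a ≠ 0` and `b`. -/
def IsAffineTranslate {p : ℕ} (P Q : (ZMod p)[X]) : Prop :=
  ∃ a b : ZMod p, a ≠ 0 ∧ P = Q.comp (C a * X + C b)

section aux

variable {p : ℕ} [Fact p.Prime]

lemma exists_zero (P : (ZMod p)[X]) (hD : P.natDegree < p) (hc : ∀ c, P ≠ C c)
    (hS : ∑ x : ZMod p, (P.eval x).val = p) : ∃ z, P.eval z = 0 := by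
  by_contra hcon
  push Not at hcon
  have hp1 := (Fact.out : p.Prime).one_lt
  have h1 : ∀ x ∈ (univ : Finset (ZMod p)), 1 ≤ (P.eval x).val := by
    intro x _
    rcases Nat.eq_zero_or_pos (P.eval x).val with h | h
    · rw [ZMod.val_eq_zero] at h
      exact absurd h (hcon x)
    · exact h
  have h2 : ∑ x : ZMod p, 1 = ∑ x : ZMod p, (P.eval x).val := by
    rw [hS]; simp [ZMod.card]
  have h3 := (Finset.sum_eq_sum_iff_of_le h1).mp h2
  have h4 : P = C 1 := by
    apply eq_of_natDegree_lt_card_of_eval_eq' _ _ (univ : Finset (ZMod p))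
    · intro x hx
      rw [eval_C]
      have h5 := h3 x hx
      have : Fact (1 < p) := ⟨hp1⟩
      apply ZMod.val_injective
      rw [← h5, ZMod.val_one]
    · rw [Finset.card_univ, ZMod.card, natDegree_C]
      exact max_lt hD (by omega)
  exact hc 1 h4

lemma final_form (hp2 : p ≠ 2) (u l x0 z : ZMod p) (hu : u ≠ 0)
    (hz : (C u * (1 + C l * (X - C x0) ^ ((p - 1) / 2))).eval z = 0) :
    IsAffineTranslate (C u * (1 + C l * (X - C x0) ^ ((p - 1) / 2)))
      (C u * (X ^ ((p - 1) / 2) + 1)) := by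
  have hpp := (Fact.out : p.Prime)
  have hp1 := hpp.one_lt
  have hp3 : 3 ≤ p := by
    rcases Nat.lt_or_ge p 3 with h | h
    · interval_cases p; exact absurd rfl hp2
    · exact h
  have hodd : p % 2 = 1 := by
    rcases hpp.eq_two_or_odd with h | h
    · exact absurd h hp2
    · exact h
  have hn : (p - 1) / 2 = p / 2 := by omega
  rw [hn] at hz ⊢
  simp only [eval_mul, eval_C, eval_add, eval_one, eval_pow, eval_sub, eval_X] at hz
  have h1 : 1 + l * (z - x0) ^ (p / 2) = 0 := by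
    rcases mul_eq_zero.mp hz with h | h
    · exact absurd h hu
    · exact h
  have hz0 : z - x0 ≠ 0 := by
    intro h
    rw [h, zero_pow (by omega), mul_zero, add_zero] at h1
    exact one_ne_zero h1
  have hl : ∃ a : ZMod p, a ≠ 0 ∧ a ^ (p / 2) = l := by
    rcases ZMod.pow_div_two_eq_neg_one_or_one p hz0 with h | h
    · -- value 1, l = -1
      rw [h, mul_one] at h1
      have hl1 : l = -1 := by linear_combination h1
      obtain ⟨a, ha⟩ := FiniteField.exists_nonsquare (F := ZMod p) (by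
        rw [ZMod.ringChar_zmod_n]; exact hp2)
      have ha0 : a ≠ 0 := by
        rintro rfl
        exact ha ⟨0, by simp⟩
      refine ⟨a, ha0, ?_⟩
      rw [hl1]
      rcases ZMod.pow_div_two_eq_neg_one_or_one p ha0 with h2 | h2
      · exact absurd ((ZMod.euler_criterion p ha0).mpr h2) ha
      · exact h2
    · rw [h] at h1
      exact ⟨1, one_ne_zero, by rw [one_pow]; linear_combination h1⟩
  obtain ⟨a, ha0, ha⟩ := hl
  refine ⟨a, -(a * x0), ha0, ?_⟩
  have h2 : (C a * X + C (-(a * x0)) : (ZMod p)[X]) = C a * (X - C x0) := by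
    rw [C_neg, C_mul]; ring
  rw [h2]
  simp only [mul_comp, C_comp, add_comp, pow_comp, X_comp, one_comp]
  rw [mul_pow, ← C_pow, ha]
  ring

end aux

/-- **Stability for range sum `p`, with the constant `C = 8/15 > 1/2`.** For every odd prime `p` and
every non-constant `P ∈ 𝔽_p[x]` with range sum `p` that is not an affine translate of `E₁` or `E₂`,
`deg P ≥ (8/15) (p - 1)`. -/
theorem result : (1 / 2 : ℝ) < 8 / 15 ∧
    ∀ (p : ℕ) [Fact p.Prime], p ≠ 2 → ∀ P : (ZMod p)[X], (∀ c : ZMod p, P ≠ C c) →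
      rangeSum P = p → ¬ IsAffineTranslate P (E₁ p) → ¬ IsAffineTranslate P (E₂ p) →
      (8 / 15 : ℝ) * ((p : ℝ) - 1) ≤ (P.natDegree : ℝ) := by
  refine ⟨by norm_num, ?_⟩
  intro p _ hp2 P hc hS hE1 hE2
  by_contra hcon
  have hpp := (Fact.out : p.Prime)
  have hp1 := hpp.one_lt
  have hp3 : 3 ≤ p := by
    rcases Nat.lt_or_ge p 3 with h | h
    · interval_cases p; exact absurd rfl hp2
    · exact h
  have hodd : p % 2 = 1 := by
    rcases hpp.eq_two_or_odd with h | h
    · exact absurd h hp2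
    · exact h
  have hlt : 15 * P.natDegree < 8 * (p - 1) := by
    push Not at hcon
    have h1 : (15 * P.natDegree : ℝ) < 8 * ((p : ℝ) - 1) := by linarith
    have h2 : ((p - 1 : ℕ) : ℝ) = (p : ℝ) - 1 := by
      rw [Nat.cast_sub hp1.le]; simp
    rw [← h2] at h1
    exact_mod_cast h1
  have hD1 : 1 ≤ P.natDegree := by
    rcases Nat.eq_zero_or_pos P.natDegree with h | h
    · exact absurd (eq_C_of_natDegree_eq_zero h) (hc _)
    · exact h
  obtain ⟨z, hz⟩ := exists_zero P (by omega) hc hS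
  have h20 : (2 : ZMod p) ≠ 0 := by
    intro h2
    have h3 : ((2 : ℕ) : ZMod p) = 0 := by exact_mod_cast h2
    rw [CharP.cast_eq_zero_iff (ZMod p) p] at h3
    exact absurd (Nat.le_of_dvd (by norm_num) h3) (by omega)
  have hFd : (R159.RangeSum.Fp (fun a => (P.eval a).val)).natDegree = p := by
    rw [R159.RangeSum.Fp_natDegree]; exact hS
  have hFm := R159.RangeSum.Fp_monic (fun a => (P.eval a).val)
  have hid := R159.RangeSum.key_identity P (by omega)
  obtain ⟨U, L, hG2, hU', hUd, hLd⟩ := R159.RangeSum.step2 _ P hFm hFd hp2 hid hD1 hlt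
  by_cases hW : U * (derivative (R159.RangeSum.Fp (fun a => (P.eval a).val)) + 1)
      - (P + derivative (R159.RangeSum.Fp (fun a => (P.eval a).val)))
        * (R159.RangeSum.Fp (fun a => (P.eval a).val) - (X ^ p - X)) - U = 0
  · obtain ⟨l, x0, hP⟩ := R159.RangeSum.step3 _ P U L hFm hFd hp2 hid hD1 hlt hG2 hU' hUd hW
    have hP2 : P = C 1 * (1 + C l * (X - C x0) ^ ((p - 1) / 2)) := by
      rw [C_1, one_mul]; exact hP
    rw [hP2] at hz
    have h1 := final_form hp2 1 l x0 z one_ne_zero hz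
    rw [← hP2] at h1
    apply hE1
    obtain ⟨a, b, ha, hab⟩ := h1
    refine ⟨a, b, ha, ?_⟩
    rw [hab, E₁, C_1, one_mul]
  · obtain ⟨c, a, hP⟩ := R159.RangeSum.step4 P U L _ hFd hp2 hid hD1 hlt hG2 hUd hLd hW
    have hP2 : P = C (2⁻¹) * (1 + C (2 * c) * (X - C a) ^ ((p - 1) / 2)) := by
      rw [mul_add, mul_one, ← mul_assoc, ← C_mul, ← mul_assoc, inv_mul_cancel₀ h20, one_mul]
      exact hP
    rw [hP2] at hz
    have h1 := final_form hp2 (2⁻¹) (2 * c) a z (inv_ne_zero h20) hz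
    rw [← hP2] at h1
    apply hE2
    obtain ⟨a', b, ha, hab⟩ := h1
    refine ⟨a', b, ha, ?_⟩
    have h2 : (((p + 1) / 2 : ℕ) : ZMod p) = 2⁻¹ := by
      apply eq_inv_of_mul_eq_one_left
      have h3 : (p + 1) / 2 * 2 = p + 1 := by omega
      have h4 : ((((p + 1) / 2 * 2 : ℕ)) : ZMod p) = ((p + 1 : ℕ) : ZMod p) := by rw [h3]
      push_cast at h4
      rw [h4]
      simp
    rw [E₂, h2]
    exact hab

end Pool.Agent.Results.MP_b68c19_nt.Stability
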